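import Pool.Agent.RainbowSun.Main

/-!
# Almost rainbow sunflowers in families of size `C ^ w` (MP_2812e0_co)

For all `k ≥ 2` and `ε > 0` there is a constant `C` such that for every `w`-set system `F` with
`|F| ≥ C ^ w` a random partition `X = X_0 ∪ … ∪ X_{k-1}` admits, with probability at least
`1 - 2 ^ (-√w)`, distinct members `S_0, …, S_{k-1}` of `F` such that `S_i \ S_j ⊆ X_i` for all `i < j`,
`S_j \ S_0 ⊆ X_j` for all `j`, and `S_j \ S_i` (for `i < j`) is contained in `X_j` up to at most
`ε |S_j \ S_i|` elements, all of them in `X_0`.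
-/

open Finset

namespace Pool.Agent.Results.MP_2812e0_co.AlmostRainbow

universe u

variable {X : Type u} [Fintype X] [DecidableEq X] {k : ℕ}

/-- The part `X_i` of the partition of `X` described by `χ : X → Fin k`. -/
def part (χ : X → Fin k) (i : Fin k) : Finset X := univ.filter fun x => χ x = i

/-- The probability that the uniformly random partition of `X` into `k` parts has the property
`P`: every element is put into one of the `k` parts independently and uniformly, so every map
`χ : X → Fin k` has the same probability. -/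
noncomputable def prob (X : Type u) [Fintype X] (k : ℕ) (P : (X → Fin k) → Prop) : ℝ :=
  (Nat.card {χ : X → Fin k // P χ} : ℝ) / (Nat.card (X → Fin k) : ℝ)

/-- Distinct members `S_0, …, S_{k-1}` of `F` such that
* `S_i \ S_j ⊆ X_i` for all `i < j`;
* `S_j \ S_0 ⊆ X_j` for all `j`;
* for `i < j`, `S_j \ S_i ⊆ X_j ∪ X_0`, and at most `ε |S_j \ S_i|` elements of `S_j \ S_i` are not
  in `X_j`.
(A rainbow `k`-petal sunflower is the case in which `S_i \ S_j ⊆ X_i` for all `i ≠ j`.) -/
def HasAlmostRainbow (F : Finset (Finset X)) (ε : ℝ) (χ : X → Fin k) : Prop :=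
  ∃ S : Fin k → Finset X, Function.Injective S ∧ (∀ i, S i ∈ F) ∧
    (∀ i j, i < j → S i \ S j ⊆ part χ i) ∧
    (∀ z j : Fin k, (z : ℕ) = 0 → S j \ S z ⊆ part χ j) ∧
    ∀ z i j : Fin k, (z : ℕ) = 0 → i < j → S j \ S i ⊆ part χ j ∪ part χ z ∧
      (((S j \ S i) \ part χ j).card : ℝ) ≤ ε * ((S j \ S i).card : ℝ)

lemma prob_ge (X : Type u) [Fintype X] (k : ℕ) (hk : 1 ≤ k) (P : (X → Fin k) → Prop) (β : ℝ)
    (E : Finset (X → Fin k)) (hE : (E.card : ℝ) ≤ β * k ^ Fintype.card X)
    (hP : ∀ χ ∉ E, P χ) : 1 - β ≤ prob X k P := by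
  classical
  have h1 : Nat.card (X → Fin k) = k ^ Fintype.card X := by
    rw [Nat.card_eq_fintype_card, Fintype.card_fun, Fintype.card_fin]
  have h2 : k ^ Fintype.card X ≤ Nat.card {χ : X → Fin k // P χ} + E.card := by
    rw [Nat.card_eq_fintype_card, Fintype.card_subtype]
    have h3 : (univ : Finset (X → Fin k)) ⊆ univ.filter (fun χ => P χ) ∪ E := by
      intro χ _
      by_cases h : χ ∈ E
      · exact mem_union_right _ h
      · exact mem_union_left _ (mem_filter.mpr ⟨mem_univ _, hP χ h⟩)
    have h4 := (card_le_card h3).trans (card_union_le _ _)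
    rwa [card_univ, Fintype.card_fun, Fintype.card_fin] at h4
  have h5 : ((k ^ Fintype.card X : ℕ) : ℝ) ≤ (Nat.card {χ : X → Fin k // P χ} : ℝ) + E.card := by
    exact_mod_cast h2
  push_cast at h5
  have hk0 : (0 : ℝ) < (k : ℝ) ^ Fintype.card X := by
    have : (0 : ℝ) < k := by exact_mod_cast hk
    positivity
  rw [prob, h1]
  push_cast
  rw [le_div_iff₀ hk0]
  linarith

/-- Almost rainbow sunflowers exist in families of size `C ^ w`. -/
theorem result (k : ℕ) (hk : 2 ≤ k) (ε : ℝ) (hε : 0 < ε) :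
    ∃ C : ℝ, ∀ (w : ℕ) (X : Type u) [Fintype X] [DecidableEq X] (F : Finset (Finset X)),
      (∀ S ∈ F, S.card = w) → C ^ w ≤ (F.card : ℝ) →
      1 - (2 : ℝ) ^ (-Real.sqrt w) ≤ prob X k (fun χ => HasAlmostRainbow F ε χ) := by
  classical
  set ε' : ℝ := min ε 1 with hε'
  have hε'pos : 0 < ε' := lt_min hε one_pos
  refine ⟨Real.exp (k * RainbowSun.Lam k * (1 + 4 / ε')), ?_⟩
  intro w X _ _ F hF hbig
  rcases Nat.eq_zero_or_pos w with hw | hw
  · subst hw
    have : 0 ≤ prob X k (fun χ => HasAlmostRainbow F ε χ) := by unfold prob; positivity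
    simpa using this
  have hlog : w * (k * RainbowSun.Lam k * (1 + 4 / ε')) ≤ Real.log F.card := by
    have h1 := Real.log_le_log (by positivity) hbig
    rwa [Real.log_pow, Real.log_exp] at h1
  obtain ⟨Y₀, E, hE, hgood⟩ := RainbowSun.main hk ε' hε'pos F w hw hF hlog
  refine prob_ge X k (by omega) _ _ E hE ?_
  intro χ hχ
  obtain ⟨S, hS, hSc, hn⟩ := hgood χ hχ
  have hk0 : 0 < k := by omega
  -- membership in a part
  have mp : ∀ (i : Fin k) (x : X), x ∈ part χ i ↔ (χ x : ℕ) = i := by
    intro i x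
    rw [part, mem_filter, Fin.ext_iff]
    simp
  -- colours
  have hout : ∀ j : Fin k, ∀ x ∈ S j \ S 0, (χ x : ℕ) = j := by
    intro j x hx
    rcases Nat.eq_zero_or_pos (j : ℕ) with h0 | h0
    · rw [h0, sdiff_self] at hx
      simp at hx
    · exact (hSc j h0 j.2).2.1 x hx
  -- exceptional elements lie in the centre
  have hlt : ∀ i j : Fin k, i < j → ∀ x ∈ S i \ S j, (χ x : ℕ) = i := by
    intro i j hij x hx
    have hj0 : 1 ≤ (j : ℕ) := by
      have : (i : ℕ) < j := hij
      omega
    rw [mem_sdiff] at hx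
    rcases Nat.eq_zero_or_pos (i : ℕ) with h0 | h0
    · rw [h0] at hx ⊢
      exact (hSc j hj0 j.2).2.2.1 x (mem_sdiff.mpr hx)
    · by_cases hx0 : x ∈ S 0
      · exfalso
        have := hn i j h0 (le_of_lt hij) j.2 (mem_inter.mpr ⟨hx0, hx.1⟩)
        exact hx.2 (mem_inter.mp this).2
      · exact hout i x (mem_sdiff.mpr ⟨hx.1, hx0⟩)
  refine ⟨fun i => S i, ?_, fun i => (hS i i.2).1, ?_, ?_, ?_⟩
  · -- injectivity
    have key : ∀ i j : Fin k, i < j → S i ≠ S j := by
      intro i j hij he
      have hj0 : 1 ≤ (j : ℕ) := by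
        have : (i : ℕ) < j := hij
        omega
      rcases Nat.eq_zero_or_pos (i : ℕ) with h0 | h0
      · rw [h0] at he
        exact (hSc j hj0 j.2).1 he.symm
      · -- both have elements outside the centre, of different colours
        have hne : (S j \ S 0).Nonempty := by
          rw [sdiff_nonempty]
          intro hsub
          have h1 : (S j).card = (S 0).card := by
            rw [hF _ (hS j j.2).1, hF _ (hS 0 hk0).1]
          exact (hSc j hj0 j.2).1 (eq_of_subset_of_card_le hsub h1.ge)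
        obtain ⟨x, hx⟩ := hne
        have e1 := hout j x hx
        have e2 := hout i x (by rw [he]; exact hx)
        have : (i : ℕ) < j := hij
        omega
    intro i j hij
    rcases lt_trichotomy i j with h | h | h
    · exact absurd hij (key i j h)
    · exact h
    · exact absurd hij.symm (key j i h)
  · intro i j hij x hx
    rw [mp]
    exact hlt i j hij x hx
  · intro z j hz x hx
    dsimp only at hx
    rw [mp]
    have : S (z : ℕ) = S 0 := by rw [hz]
    rw [this] at hx
    exact hout j x hx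
  · intro z i j hz hij
    dsimp only
    have hj0 : 1 ≤ (j : ℕ) := by
      have : (i : ℕ) < j := hij
      omega
    -- elements of `S j` not in `part j` lie in `S 0`
    have hcent : ∀ x ∈ (S j \ S i) \ part χ j, x ∈ (S 0 ∩ S j) \ Y₀ := by
      intro x hx
      rw [mem_sdiff, mem_sdiff, mp] at hx
      rw [mem_sdiff, mem_inter]
      refine ⟨⟨?_, hx.1.1⟩, fun hxY => hx.1.2 ((hS i i.2).2 hxY)⟩
      by_contra hx0
      exact hx.2 (hout j x (mem_sdiff.mpr ⟨hx.1.1, hx0⟩))
    constructor
    · intro x hx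
      rw [mem_union]
      by_cases hxj : x ∈ part χ j
      · exact Or.inl hxj
      · right
        rw [mp, hz]
        have hx0 : x ∈ S 0 := (mem_inter.mp (mem_sdiff.mp (hcent x (mem_sdiff.mpr ⟨hx, hxj⟩))).1).1
        rw [mem_sdiff] at hx
        rcases Nat.eq_zero_or_pos (i : ℕ) with h0 | h0
        · rw [h0] at hx
          exact absurd hx0 hx.2
        · exact (hSc i h0 i.2).2.2.1 x (mem_sdiff.mpr ⟨hx0, hx.2⟩)
    · set m : ℝ := ((w - Y₀.card : ℕ) : ℝ) with hm
      have hb := (hSc j hj0 j.2).2.2.2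
      have h1 : (((S j \ S i) \ part χ j).card : ℝ) ≤ ε' / 2 * m := by
        refine le_trans ?_ hb
        exact_mod_cast card_le_card hcent
      -- the difference is large
      have h2 : S j \ S 0 ⊆ S j \ S i := by
        intro x hx
        rw [mem_sdiff]
        refine ⟨(mem_sdiff.mp hx).1, fun hxi => ?_⟩
        have e1 := hout j x hx
        have e2 := hout i x (mem_sdiff.mpr ⟨hxi, (mem_sdiff.mp hx).2⟩)
        have : (i : ℕ) < j := hij
        omega
      have hYj : Y₀ ⊆ S j := (hS j j.2).2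
      have hY0 : Y₀ ⊆ S 0 := (hS 0 hk0).2
      have h3 : (S j \ Y₀).card ≤ (S j \ S 0).card + ((S 0 ∩ S j) \ Y₀).card := by
        refine le_trans (card_le_card ?_) (card_union_le _ _)
        intro x hx
        rw [mem_sdiff] at hx
        rw [mem_union, mem_sdiff, mem_sdiff, mem_inter]
        by_cases hx0 : x ∈ S 0
        · exact Or.inr ⟨⟨hx0, hx.1⟩, hx.2⟩
        · exact Or.inl ⟨hx.1, hx0⟩
      have h4 : ((S j \ Y₀).card : ℝ) = m := by
        rw [card_sdiff_of_subset hYj, hF _ (hS j j.2).1]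
      have h5 : m ≤ ((S j \ S 0).card : ℝ) + (((S 0 ∩ S j) \ Y₀).card : ℝ) := by
        rw [← h4]; exact_mod_cast h3
      have hε1 : ε' ≤ 1 := min_le_right _ _
      have hm0 : 0 ≤ m := by positivity
      have h6 : m / 2 ≤ ((S j \ S 0).card : ℝ) := by nlinarith
      have h7 : ((S j \ S 0).card : ℝ) ≤ ((S j \ S i).card : ℝ) := by
        exact_mod_cast card_le_card h2
      calc (((S j \ S i) \ part χ j).card : ℝ) ≤ ε' / 2 * m := h1
        _ = ε' * (m / 2) := by ring
        _ ≤ ε' * ((S j \ S i).card : ℝ) :=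
          mul_le_mul_of_nonneg_left (h6.trans h7) hε'pos.le
        _ ≤ ε * ((S j \ S i).card : ℝ) :=
          mul_le_mul_of_nonneg_right (min_le_left _ _) (by positivity)

end Pool.Agent.Results.MP_2812e0_co.AlmostRainbow
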