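import Pool.Agent.VCS.All

/-!
# Rainbow sunflowers in set systems of bounded VC-dimension (MP_2812e0_co)

For every `k ≥ 2` there is a constant `C` such that for all `d ≥ 2` and `w ≥ 1` every `w`-set system
`F` of VC-dimension at most `d` with `|F| ≥ (C log d) ^ w` has a rainbow `k`-petal sunflower for the
random partition of the ground set into `k` parts with probability at least `1 - C / w`.
-/

open Finset

namespace Pool.Agent.Results.MP_2812e0_co.VCDimension

universe u

/-- The part `X_i` of the partition of `X` described by `χ : X → Fin k`. -/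
def part {X : Type u} [Fintype X] {k : ℕ} (χ : X → Fin k) (i : Fin k) : Finset X :=
  univ.filter fun x => χ x = i

/-- The probability that the uniformly random partition of `X` into `k` parts has the property
`P`: every element is put into one of the `k` parts independently and uniformly, so every map
`χ : X → Fin k` has the same probability. -/
noncomputable def prob (X : Type u) [Fintype X] (k : ℕ) (P : (X → Fin k) → Prop) : ℝ :=
  (Nat.card {χ : X → Fin k // P χ} : ℝ) / (Nat.card (X → Fin k) : ℝ)

/-- A rainbow `k`-petal sunflower in `F` with respect to the partition given by `χ`: distinct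
members `S_i` of `F` with `S_i \ S_j ⊆ X_i` for all `i ≠ j`. -/
def HasRainbowSunflower {X : Type u} [Fintype X] [DecidableEq X] {k : ℕ} (F : Finset (Finset X))
    (χ : X → Fin k) : Prop :=
  ∃ S : Fin k → Finset X, Function.Injective S ∧ (∀ i, S i ∈ F) ∧
    ∀ i j, i ≠ j → S i \ S j ⊆ part χ i

/-- The rainbow sunflower conjecture for set systems of bounded VC-dimension. -/
theorem result (k : ℕ) (hk : 2 ≤ k) :
    ∃ C : ℝ, 0 < C ∧ ∀ (d w : ℕ) (X : Type u) [Fintype X] [DecidableEq X]
      (F : Finset (Finset X)), 2 ≤ d → 1 ≤ w → (∀ S ∈ F, S.card = w) → F.vcDim ≤ d →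
      (C * Real.log d) ^ w ≤ (F.card : ℝ) →
      1 - C / w ≤ prob X k (fun χ => HasRainbowSunflower F χ) := by
  classical
  obtain ⟨C, hC, hmain⟩ := VCS.main_all.{u} k hk
  refine ⟨C, hC, ?_⟩
  intro d w X _ _ F hd hw hF hvc hbig
  have h1 := hmain d w X F hd hw hF hvc hbig
  have hk0 : (0 : ℝ) < k := by
    have : 0 < k := by omega
    exact_mod_cast this
  have hKpos : (0 : ℝ) < (k : ℝ) ^ Fintype.card X := by positivity
  have hcard : Nat.card (X → Fin k) = k ^ Fintype.card X := by
    rw [Nat.card_eq_fintype_card, Fintype.card_fun, Fintype.card_fin]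
  have hiff : ∀ χ : X → Fin k, HasRainbowSunflower F χ ↔ VCS.Rain F χ := by
    intro χ
    simp only [HasRainbowSunflower, VCS.Rain, part, subset_iff, mem_filter, mem_univ, true_and]
  have hsplit : (Nat.card {χ : X → Fin k // HasRainbowSunflower F χ} : ℝ) +
      ((univ.filter fun χ : X → Fin k => ¬ VCS.Rain F χ).card : ℝ) =
      (k : ℝ) ^ Fintype.card X := by
    have h2 : Nat.card {χ : X → Fin k // HasRainbowSunflower F χ} =
        (univ.filter fun χ : X → Fin k => VCS.Rain F χ).card := by
      rw [Nat.card_eq_fintype_card, Fintype.card_subtype]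
      congr 1
      ext χ
      simp only [mem_filter, mem_univ, true_and, hiff]
    have h3 := card_filter_add_card_filter_not (s := (univ : Finset (X → Fin k)))
      (fun χ => VCS.Rain F χ)
    rw [card_univ, Fintype.card_fun, Fintype.card_fin] at h3
    rw [h2]
    exact_mod_cast h3
  rw [prob, hcard]
  push_cast
  rw [le_div_iff₀ hKpos]
  have e : (1 - C / w) * (k : ℝ) ^ Fintype.card X =
      (k : ℝ) ^ Fintype.card X - (k : ℝ) ^ Fintype.card X * (C / w) := by ring
  rw [e]
  linarith

end Pool.Agent.Results.MP_2812e0_co.VCDimension
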