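import Pool.Agent.ZOL.LOWR

/-!
# A zero-one law for the rainbow sunflower conjecture (MP_2812e0_co)

For every `k` one of the following holds.
* For every exponent `a` there is a constant `C` such that all `w`-set systems with at least
  `C ^ w` members have a rainbow `k`-petal sunflower with probability at least `1 - w ^ (-a)`.
* For every constant `C` and all large `w` there is a `w`-set system with at least `C ^ w` members,
  whose pairwise intersections have at most `δ w` elements, for which this probability is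
  exponentially small in `w`.
Hence the rainbow sunflower conjecture for `k` says that for some base `C` and all `z > 0` the
probability is larger than `exp (-z w)`; the sunflower conjecture for `k` turns out to be the same
statement with the two quantifiers exchanged.
-/

open Finset Filter

namespace Pool.Agent.Results.MP_2812e0_co.ZeroOneLaw

/-- The part `X_i` of the partition of `X` described by `χ : X → Fin k`. -/
def part {X : Type} [Fintype X] {k : ℕ} (χ : X → Fin k) (i : Fin k) : Finset X :=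
  univ.filter fun x => χ x = i

/-- The probability that the uniformly random partition of `X` into `k` parts has the property
`P`: every element is put into one of the `k` parts independently and uniformly, so every map
`χ : X → Fin k` has the same probability. -/
noncomputable def prob (X : Type) [Fintype X] (k : ℕ) (P : (X → Fin k) → Prop) : ℝ :=
  (Nat.card {χ : X → Fin k // P χ} : ℝ) / (Nat.card (X → Fin k) : ℝ)

/-- A rainbow `k`-petal sunflower in `F` with respect to the partition given by `χ`: distinct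
members `S_i` of `F` with `S_i \ S_j ⊆ X_i` for all `i ≠ j`. -/
def HasRainbowSunflower {X : Type} [Fintype X] [DecidableEq X] {k : ℕ} (F : Finset (Finset X))
    (χ : X → Fin k) : Prop :=
  ∃ S : Fin k → Finset X, Function.Injective S ∧ (∀ i, S i ∈ F) ∧
    ∀ i j, i ≠ j → S i \ S j ⊆ part χ i

/-- `g` is admissible for `k`: there is `ε(w) → 0` such that for every `w`, every finite ground set
`X` and every `w`-set system `F` on `X` with `|F| ≥ g(w)`, the random partition admits a rainbow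
`k`-petal sunflower in `F` with probability at least `1 - ε(w)`. -/
def Admissible (k : ℕ) (g : ℕ → ℝ) : Prop :=
  ∃ ε : ℕ → ℝ, Tendsto ε atTop (nhds 0) ∧
    ∀ (w : ℕ) (X : Type) [Fintype X] [DecidableEq X] (F : Finset (Finset X)),
      (∀ S ∈ F, S.card = w) → g w ≤ (F.card : ℝ) →
      1 - ε w ≤ prob X k (fun χ => HasRainbowSunflower F χ)

/-- `F` is a `w`-set system with at least `C ^ w` members. -/
def Large {X : Type} (w : ℕ) (C : ℝ) (F : Finset (Finset X)) : Prop :=
  (∀ S ∈ F, S.card = w) ∧ C ^ w ≤ (F.card : ℝ)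

/-- Any two members of `F` have at most `δ w` common elements. -/
def Apart {X : Type} [DecidableEq X] (δ : ℝ) (w : ℕ) (F : Finset (Finset X)) : Prop :=
  ∀ S ∈ F, ∀ S' ∈ F, S ≠ S' → ((S ∩ S').card : ℝ) ≤ δ * w

/-- `F` has a `k`-petal sunflower: distinct members `S_i` of `F` and a set `Y` with
`S_i ∩ S_j = Y` for all `i ≠ j`. -/
def HasSunflower {X : Type} [DecidableEq X] (k : ℕ) (F : Finset (Finset X)) : Prop :=
  ∃ (S : Fin k → Finset X) (Y : Finset X), Function.Injective S ∧ (∀ i, S i ∈ F) ∧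
    ∀ i j, i ≠ j → S i ∩ S j = Y

/-- The (ordinary) sunflower conjecture for `k` petals: for some constant `C`, every `w`-set system
with at least `C ^ w` members has a `k`-petal sunflower. -/
def SunflowerConjecture (k : ℕ) : Prop :=
  ∃ C : ℝ, ∀ w : ℕ, 1 ≤ w → ∀ (X : Type) [Fintype X] [DecidableEq X] (F : Finset (Finset X)),
    Large w C F → HasSunflower k F

/-- For arbitrarily large `w`, the probability of a rainbow `k`-petal sunflower is larger than
`exp (-z w)` for all `w`-set systems with at least `C ^ w` members, any two of which have at most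
`δ w` common elements. -/
def LowerBound (k : ℕ) (δ C z : ℝ) : Prop :=
  ∀ w₀ : ℕ, ∃ w : ℕ, w₀ ≤ w ∧
    ∀ (X : Type) [Fintype X] [DecidableEq X] (F : Finset (Finset X)), Large w C F → Apart δ w F →
      Real.exp (-z * w) < prob X k (fun χ => HasRainbowSunflower F χ)

theorem Large_mono {X : Type} {w : ℕ} {C C1 : ℝ} {F : Finset (Finset X)} (h : |C| ≤ C1)
    (hF : Large w C1 F) : Large w C F := ZOL.Big_mono h hF

theorem prob_nonneg (X : Type) [Fintype X] (k : ℕ) (P : (X → Fin k) → Prop) : 0 ≤ prob X k P :=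
  div_nonneg (Nat.cast_nonneg _) (Nat.cast_nonneg _)

theorem dichotomy (k : ℕ) (hk : 2 ≤ k) (δ : ℝ) (hδ0 : 0 < δ) (hδ1 : δ < 1) (a : ℝ) (ha : 0 < a) :
    ∃ A : ℝ, 1 ≤ A ∧ ∀ C : ℝ, 1 ≤ C →
    (∀ (w : ℕ) (X : Type) [Fintype X] [DecidableEq X] (F : Finset (Finset X)), 1 ≤ w →
      Large w (A * C ^ (256 / δ ^ 2)) F →
      1 - (w : ℝ) ^ (-a) ≤ prob X k (fun χ => HasRainbowSunflower F χ)) ∨
    (∃ z : ℝ, 0 < z ∧ ∃ w₀ : ℕ, ∀ w : ℕ, w₀ ≤ w →
      ∃ (X : Type) (_ : Fintype X) (_ : DecidableEq X) (F : Finset (Finset X)),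
        Large w C F ∧ Apart δ w F ∧
          prob X k (fun χ => HasRainbowSunflower F χ) ≤ Real.exp (-z * w)) := by
  obtain ⟨A, hA, h⟩ := ZOL.p_MAIN2 k δ a hk hδ0 hδ1 ha
  refine ⟨A, hA, fun C hC => ?_⟩
  rcases h C hC with h1 | h1
  · exact Or.inl fun w X _ _ F hw hF => h1 w hw X F hF
  · exact Or.inr h1

theorem admissible_of_bound {k : ℕ} {a C : ℝ} (ha : 0 < a)
    (h : ∀ (w : ℕ) (X : Type) [Fintype X] [DecidableEq X] (F : Finset (Finset X)), 1 ≤ w →
      Large w C F → 1 - (w : ℝ) ^ (-a) ≤ prob X k (fun χ => HasRainbowSunflower F χ)) :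
    Admissible k (fun w => C ^ w) := by
  refine ⟨fun w => if w = 0 then 1 else (w : ℝ) ^ (-a), ?_, ?_⟩
  · have h1 : Tendsto (fun w : ℕ => (w : ℝ) ^ (-a)) atTop (nhds 0) :=
      (tendsto_rpow_neg_atTop ha).comp tendsto_natCast_atTop_atTop
    refine h1.congr' ?_
    filter_upwards [eventually_ge_atTop 1] with w hw
    rw [if_neg (by omega)]
  · intro w X _ _ F hF hcard
    by_cases hw : w = 0
    · simp only [hw, if_true]
      linarith [prob_nonneg X k (fun χ => HasRainbowSunflower F χ)]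
    · simp only [if_neg hw]
      exact h w X F (by omega) ⟨hF, hcard⟩

/-- along an admissible function the probability is eventually larger than `exp (-z w)` -/
theorem eventually_lt {k : ℕ} {g : ℕ → ℝ} (hg : Admissible k g) {z : ℝ} (hz : 0 < z) :
    ∃ w₁ : ℕ, ∀ w : ℕ, w₁ ≤ w → ∀ (X : Type) [Fintype X] [DecidableEq X] (F : Finset (Finset X)),
      (∀ S ∈ F, S.card = w) → g w ≤ (F.card : ℝ) →
      Real.exp (-z * w) < prob X k (fun χ => HasRainbowSunflower F χ) := by
  obtain ⟨ε, hε, h⟩ := hg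
  have h1 : ∀ᶠ w : ℕ in atTop, ε w < 1 / 2 := hε.eventually_lt_const (by norm_num)
  have h2 : Tendsto (fun w : ℕ => Real.exp (-z * w)) atTop (nhds 0) := by
    apply Real.tendsto_exp_atBot.comp
    exact tendsto_natCast_atTop_atTop.const_mul_atTop_of_neg (by linarith)
  have h3 : ∀ᶠ w : ℕ in atTop, Real.exp (-z * w) < 1 / 2 := h2.eventually_lt_const (by norm_num)
  obtain ⟨w₁, hw₁⟩ := eventually_atTop.1 (h1.and h3)
  refine ⟨w₁, fun w hw X _ _ F hF hcard => ?_⟩
  have := h w X F hF hcard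
  have h4 := (hw₁ w hw).1
  have h5 := (hw₁ w hw).2
  linarith

theorem rainbow_iff (k : ℕ) (hk : 2 ≤ k) (δ : ℝ) (hδ0 : 0 < δ) (hδ1 : δ < 1) :
    (∃ C : ℝ, Admissible k (fun w => C ^ w)) ↔ ∃ C : ℝ, ∀ z : ℝ, 0 < z → LowerBound k δ C z := by
  constructor
  · rintro ⟨C, hC⟩
    refine ⟨C, fun z hz w₀ => ?_⟩
    obtain ⟨w₁, h⟩ := eventually_lt hC hz
    exact ⟨max w₀ w₁, le_max_left _ _, fun X _ _ F hF _ => h _ (le_max_right _ _) X F hF.1 hF.2⟩
  · rintro ⟨C, hC⟩
    obtain ⟨A, -, h⟩ := dichotomy k hk δ hδ0 hδ1 1 zero_lt_one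
    rcases h (max |C| 1) (le_max_right _ _) with h1 | ⟨z, hz, w₀, h1⟩
    · exact ⟨_, admissible_of_bound zero_lt_one h1⟩
    · exfalso
      obtain ⟨w, hw, h2⟩ := hC z hz w₀
      obtain ⟨X, i1, i2, F, hF, hFa, hp⟩ := h1 w hw
      exact absurd hp (not_le.2 (h2 X F (Large_mono (le_max_left _ _) hF) hFa))

theorem sunflower_iff (k : ℕ) (hk : 2 ≤ k) (δ : ℝ) (hδ0 : 0 < δ) (hδ1 : δ < 1) :
    SunflowerConjecture k ↔ ∀ z : ℝ, 0 < z → ∃ C : ℝ, LowerBound k δ C z := by
  constructor
  · rintro ⟨C₀, hC₀⟩ z hz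
    obtain ⟨C, -, w₁, h⟩ := ZOL.lower_of_SC hk (C₀ := C₀) hC₀ hz
    exact ⟨C, fun w₀ => ⟨max w₀ w₁, le_max_left _ _, fun X _ _ F hF _ =>
      h _ (le_max_right _ _) X F hF⟩⟩
  · intro h
    obtain ⟨C, hC⟩ := h 1 one_pos
    by_contra hno
    have h1 : ¬ ZOL.SC k (ZOL.base (δ / 4) (max |C| 1)) := fun h2 => hno ⟨_, h2⟩
    obtain ⟨w₀, h3⟩ := ZOL.free_of_not_SC hk hδ0 hδ1 (le_max_right |C| 1) h1
    obtain ⟨w, hw, h4⟩ := hC w₀
    obtain ⟨X, i1, i2, F, hF, hFa, hfree⟩ := h3 w hw
    have h5 := h4 X F (Large_mono (le_max_left _ _) hF) hFa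
    have h6 : prob X k (fun χ => HasRainbowSunflower F χ) = 0 := ZOL.pr_eq_zero hk hfree
    rw [h6] at h5
    exact absurd h5 (not_lt.2 (Real.exp_pos _).le)

/-- The zero-one law for rainbow sunflowers: for every `k ≥ 2` and `0 < δ < 1`, (1) for every
exponent `a` a dichotomy for every base `C`; (2) the rainbow sunflower conjecture for `k` is
equivalent to `∃ C, ∀ z > 0, LowerBound k δ C z`; (3) the sunflower conjecture for `k` is
equivalent to `∀ z > 0, ∃ C, LowerBound k δ C z`. -/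
theorem result (k : ℕ) (hk : 2 ≤ k) (δ : ℝ) (hδ0 : 0 < δ) (hδ1 : δ < 1) :
    (∀ a : ℝ, 0 < a → ∃ A : ℝ, 1 ≤ A ∧ ∀ C : ℝ, 1 ≤ C →
      (∀ (w : ℕ) (X : Type) [Fintype X] [DecidableEq X] (F : Finset (Finset X)), 1 ≤ w →
        Large w (A * C ^ (256 / δ ^ 2)) F →
        1 - (w : ℝ) ^ (-a) ≤ prob X k (fun χ => HasRainbowSunflower F χ)) ∨
      (∃ z : ℝ, 0 < z ∧ ∃ w₀ : ℕ, ∀ w : ℕ, w₀ ≤ w →
        ∃ (X : Type) (_ : Fintype X) (_ : DecidableEq X) (F : Finset (Finset X)),
          Large w C F ∧ Apart δ w F ∧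
            prob X k (fun χ => HasRainbowSunflower F χ) ≤ Real.exp (-z * w))) ∧
    ((∃ C : ℝ, Admissible k (fun w => C ^ w)) ↔ ∃ C : ℝ, ∀ z : ℝ, 0 < z → LowerBound k δ C z) ∧
    (SunflowerConjecture k ↔ ∀ z : ℝ, 0 < z → ∃ C : ℝ, LowerBound k δ C z) :=
  ⟨dichotomy k hk δ hδ0 hδ1, rainbow_iff k hk δ hδ0 hδ1, sunflower_iff k hk δ hδ0 hδ1⟩

end Pool.Agent.Results.MP_2812e0_co.ZeroOneLaw
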